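import Pool.Agent.Helper76.CQ.Defs

/-!
# Project CQ, piece CQ-3: the ring of bounded germs
-/

namespace Pool.Agent.Helper82.CQ

open MvPolynomial Pool.Agent.Helper76.CY Pool.Agent.Helper76.CQ Filter Topology

theorem mk_eq_iff (x y : Bdd) : Ideal.Quotient.mk Zer x = Ideal.Quotient.mk Zer y ↔
    ∀ᶠ m in (UU : Filter ℕ), x.1 m = y.1 m := by
  rw [Ideal.Quotient.eq]
  constructor
  · intro h
    have h1 : ∀ᶠ m in (UU : Filter ℕ), x.1 m - y.1 m = 0 := h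
    exact h1.mono fun m hm => sub_eq_zero.1 hm
  · intro h
    have h1 : ∀ᶠ m in (UU : Filter ℕ), x.1 m - y.1 m = 0 := h.mono fun m hm => sub_eq_zero.2 hm
    exact h1

theorem zer_prime : Zer.IsPrime := by
  refine ⟨?_, ?_⟩
  · intro h
    have h1 : (1 : Bdd) ∈ Zer := by rw [h]; trivial
    have h2 : ∀ᶠ m in (UU : Filter ℕ), (1 : ℚ_[2]) = 0 := h1
    obtain ⟨m, hm⟩ := h2.exists
    exact one_ne_zero hm
  · intro x y hxy
    have h1 : ∀ᶠ m in (UU : Filter ℕ), x.1 m * y.1 m = 0 := hxy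
    have h2 : ∀ᶠ m in (UU : Filter ℕ), x.1 m = 0 ∨ y.1 m = 0 :=
      h1.mono fun m hm => mul_eq_zero.1 hm
    exact Ultrafilter.eventually_or.1 h2

theorem sm_unit (x : GO) (c : ℚ_[2]) (hc : c ≠ 0) (h : x - algebraMap ℚ_[2] GO c ∈ sm) :
    IsUnit x := by
  classical
  obtain ⟨x, rfl⟩ := Ideal.Quotient.mk_surjective x
  obtain ⟨e, he, het⟩ := h
  have h1 : ∀ᶠ m in (UU : Filter ℕ), e.1 m = x.1 m - c := by
    refine (mk_eq_iff e (x - cst c)).1 ?_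
    rw [he, map_sub]
    rfl
  have hcn : 0 < ‖c‖ := norm_pos_iff.2 hc
  have h2 : ∀ᶠ m in (UU : Filter ℕ), ‖e.1 m‖ < ‖c‖ / 2 :=
    (tendsto_zero_iff_norm_tendsto_zero.1 het).eventually (Iio_mem_nhds (half_pos hcn))
  obtain ⟨y, hy⟩ : ∃ y : ℕ → ℚ_[2], y = fun m => if ‖c‖ / 2 ≤ ‖x.1 m‖ then (x.1 m)⁻¹ else 0 :=
    ⟨_, rfl⟩
  have hyb : ∃ C : ℝ, ∀ m, ‖y m‖ ≤ C := by
    refine ⟨(‖c‖ / 2)⁻¹, fun m => ?_⟩
    rw [hy]
    dsimp only
    split_ifs with h3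
    · rw [norm_inv]
      exact inv_anti₀ (half_pos hcn) h3
    · rw [norm_zero]
      positivity
  refine IsUnit.of_mul_eq_one (Ideal.Quotient.mk Zer ⟨y, hyb⟩) ?_
  rw [← map_mul, ← map_one (Ideal.Quotient.mk Zer), mk_eq_iff]
  filter_upwards [h1, h2] with m h3 h4
  have h5 : ‖c‖ / 2 ≤ ‖x.1 m‖ := by
    have h6 : c = x.1 m - e.1 m := by rw [h3]; ring
    have h7 : ‖c‖ ≤ ‖x.1 m‖ + ‖e.1 m‖ := by
      conv_lhs => rw [h6]
      exact norm_sub_le _ _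
    linarith
  have h8 : x.1 m ≠ 0 := by
    intro h9
    rw [h9, norm_zero] at h5
    linarith
  change x.1 m * y m = 1
  rw [hy]
  dsimp only
  rw [if_pos h5]
  exact mul_inv_cancel₀ h8

theorem one_notMem_sm : (1 : GO) ∉ sm := by
  rintro ⟨e, he, het⟩
  rw [← map_one (Ideal.Quotient.mk Zer), mk_eq_iff] at he
  have h2 : ∀ᶠ m in (UU : Filter ℕ), ‖e.1 m‖ < 1 :=
    (tendsto_zero_iff_norm_tendsto_zero.1 het).eventually (Iio_mem_nhds one_pos)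
  obtain ⟨m, h3, h4⟩ := (he.and h2).exists
  rw [h3] at h4
  change ‖(1 : ℚ_[2])‖ < 1 at h4
  rw [norm_one] at h4
  exact lt_irrefl _ h4

theorem rat_inv (L : ℕ → Subfield ℚ_[2]) (x : GO) (hx : x ∈ rat L) (y : GO) (h : x * y = 1) :
    y ∈ rat L := by
  classical
  obtain ⟨x', rfl, hx'⟩ := hx
  obtain ⟨y', rfl⟩ := Ideal.Quotient.mk_surjective y
  rw [← map_mul, ← map_one (Ideal.Quotient.mk Zer), mk_eq_iff] at h
  have h1 : ∀ᶠ m in (UU : Filter ℕ), x'.1 m * y'.1 m = 1 := h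
  obtain ⟨z, hz⟩ : ∃ z : ℕ → ℚ_[2], z = fun m => if x'.1 m * y'.1 m = 1 then (x'.1 m)⁻¹ else 0 :=
    ⟨_, rfl⟩
  have hzy : ∀ m, x'.1 m * y'.1 m = 1 → z m = y'.1 m := by
    intro m hm
    rw [hz]
    dsimp only
    rw [if_pos hm]
    exact (eq_inv_of_mul_eq_one_right hm).symm
  have hzb : ∃ C : ℝ, ∀ m, ‖z m‖ ≤ C := by
    obtain ⟨C, hC⟩ := y'.2
    refine ⟨C, fun m => ?_⟩
    by_cases hm : x'.1 m * y'.1 m = 1
    · rw [hzy m hm]
      exact hC m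
    · have : z m = 0 := by
        rw [hz]
        dsimp only
        rw [if_neg hm]
      rw [this, norm_zero]
      exact (norm_nonneg _).trans (hC m)
  refine ⟨⟨z, hzb⟩, ?_, fun m => ?_⟩
  · rw [mk_eq_iff]
    exact h1.mono fun m hm => hzy m hm
  · change z m ∈ L m
    rw [hz]
    dsimp only
    split_ifs
    · exact (L m).inv_mem (hx' m)
    · exact (L m).zero_mem

theorem rat_cst (L : ℕ → Subfield ℚ_[2]) (c : ℚ_[2]) (hc : ∀ m, c ∈ L m) :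
    algebraMap ℚ_[2] GO c ∈ rat L :=
  ⟨cst c, rfl, fun m => hc m⟩

end Pool.Agent.Helper82.CQ
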